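import Mathlib

/-! The cyclotomic polynomial of order 105 and the powers of `X` modulo it, in list form. -/

set_option autoImplicit false
set_option maxRecDepth 100000

namespace Pool.Agent.Q20.CY

open Polynomial Finset

theorem cyc15 : cyclotomic 15 ℤ = X ^ 8 - X ^ 7 + X ^ 5 - X ^ 4 + X ^ 3 - X + 1 := by
  have h := cyclotomic_expand_eq_cyclotomic_mul (p := 5) (n := 3) (by norm_num) (by norm_num) ℤ
  rw [cyclotomic_three] at h
  have h3 : (X ^ 2 + X + 1 : ℤ[X]) ≠ 0 := by
    rw [← cyclotomic_three]; exact cyclotomic_ne_zero 3 ℤ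
  apply mul_right_cancel₀ h3
  rw [← h]
  simp only [map_add, map_pow, expand_X, map_one]
  ring

theorem cyc105 : cyclotomic 105 ℤ = X ^ 48 + X ^ 47 + X ^ 46 - X ^ 43 - X ^ 42 - 2 * X ^ 41 - X ^ 40 - X ^ 39 + X ^ 36 + X ^ 35 + X
    ^ 34 + X ^ 33 + X ^ 32 + X ^ 31 - X ^ 28 - X ^ 26 - X ^ 24 - X ^ 22 - X ^ 20 + X ^ 17 + X ^
    16 + X ^ 15 + X ^ 14 + X ^ 13 + X ^ 12 - X ^ 9 - X ^ 8 - 2 * X ^ 7 - X ^ 6 - X ^ 5 + X ^ 2
    + X + 1 := by
  have h := cyclotomic_expand_eq_cyclotomic_mul (p := 7) (n := 15) (by norm_num) (by norm_num) ℤ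
  rw [cyc15] at h
  have h3 : (X ^ 8 - X ^ 7 + X ^ 5 - X ^ 4 + X ^ 3 - X + 1 : ℤ[X]) ≠ 0 := by
    rw [← cyc15]; exact cyclotomic_ne_zero 15 ℤ
  apply mul_right_cancel₀ h3
  rw [← h]
  simp only [map_add, map_sub, map_pow, expand_X, map_one]
  ring

/-- coefficients below the leading one -/
def Ph : List ℤ := [1, 1, 1, 0, 0, -1, -1, -2, -1, -1, 0, 0, 1, 1, 1, 1, 1, 1, 0, 0, -1, 0, -1, 0, -1, 0, -1, 0,
    -1, 0, 0, 1, 1, 1, 1, 1, 1, 0, 0, -1, -1, -2, -1, -1, 0, 0, 1, 1]

/-- twice the vertex -/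
def Y : List ℤ := [2, 2, -1, 2, 2, -4, 2, -3, 2, -4, -4, 2, 0, 2, -2, -1, -3, 2, -4, -2, 2, -1, 1, -4, -2, 2, 2,
    0, 2, -2, 1, 2, 0, 2, -4, -4, -3, 2, -2, 2, 2, -4, 1, -4, 2, 2, -4, -2]

/-- tight residues -/
def T : List ℕ := [0, 1, 3, 4, 6, 8, 11, 13, 17, 20, 25, 26, 28, 31, 33, 37, 39, 40, 44, 45, 50, 51, 52, 53, 55,
    56, 57, 58, 59, 61, 62, 64, 65, 66, 68, 69, 70, 75, 76, 77, 78, 79, 80, 81, 82, 84, 89, 98]


theorem cyc105' : cyclotomic 105 ℤ = X ^ 48 + ∑ s ∈ range 48, C (Ph.getD s 0) * X ^ s := by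
  rw [cyc105]
  simp only [Ph, sum_range_succ, sum_range_zero, List.getD_cons_zero, List.getD_cons_succ]
  simp only [map_zero, map_one, map_neg, map_ofNat]
  ring

/-- multiplication by `X` -/
def step (v : List ℤ) : List ℤ := List.zipWith (fun x c => x - v.getD 47 0 * c) (0 :: v) Ph

/-- the powers of `X` -/
def rows : ℕ → List ℤ
  | 0 => 1 :: List.replicate 47 0
  | r + 1 => step (rows r)

theorem Ph_length : Ph.length = 48 := rfl

theorem rows_length (r : ℕ) : (rows r).length = 48 := by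
  induction r with
  | zero => rfl
  | succ r ih =>
    change (step (rows r)).length = 48
    unfold step
    rw [List.length_zipWith, List.length_cons, ih, Ph_length]
    rfl

theorem step_getD (v : List ℤ) (hv : v.length = 48) (s : ℕ) (hs : s < 48) :
    (step v).getD s 0 = (0 :: v).getD s 0 - v.getD 47 0 * Ph.getD s 0 := by
  unfold step
  have h1 : s < (List.zipWith (fun x c => x - v.getD 47 0 * c) (0 :: v) Ph).length := by
    rw [List.length_zipWith, List.length_cons, hv, Ph_length]; omega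
  have h2 : s < (0 :: v).length := by rw [List.length_cons, hv]; omega
  have h3 : s < Ph.length := by rw [Ph_length]; exact hs
  rw [List.getD_eq_getElem _ _ h1, List.getElem_zipWith, List.getD_eq_getElem _ _ h2,
    List.getD_eq_getElem _ _ h3]

/-- a polynomial from its coefficients -/
noncomputable def toPoly (v : List ℤ) : ℤ[X] := ∑ s ∈ range 48, C (v.getD s 0) * X ^ s

theorem X_mul_toPoly (v : List ℤ) (hv : v.length = 48) :
    X * toPoly v = toPoly (step v) + cyclotomic 105 ℤ * C (v.getD 47 0) := by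
  have h1 : toPoly (step v) = ∑ s ∈ range 48, C ((0 :: v).getD s 0) * X ^ s -
      C (v.getD 47 0) * ∑ s ∈ range 48, C (Ph.getD s 0) * X ^ s := by
    unfold toPoly
    rw [mul_sum, ← sum_sub_distrib]
    apply sum_congr rfl
    intro s hs
    rw [step_getD v hv s (mem_range.mp hs), map_sub, map_mul]
    ring
  have h2 : X * toPoly v = ∑ s ∈ range 48, C ((0 :: v).getD s 0) * X ^ s +
      C (v.getD 47 0) * X ^ 48 := by
    have h3 : ∑ s ∈ range 49, C ((0 :: v).getD s 0) * X ^ s =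
        ∑ s ∈ range 48, C ((0 :: v).getD s 0) * X ^ s + C (v.getD 47 0) * X ^ 48 := by
      rw [sum_range_succ, List.getD_cons_succ]
    rw [← h3, sum_range_succ']
    unfold toPoly
    rw [mul_sum]
    simp only [List.getD_cons_succ, List.getD_cons_zero, map_zero, zero_mul, add_zero]
    apply sum_congr rfl
    intro s _
    ring
  rw [h1, h2, cyc105']
  ring

theorem degree_toPoly (v : List ℤ) : (toPoly v).degree < 48 := by
  unfold toPoly
  refine lt_of_le_of_lt (degree_sum_le _ _) ?_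
  rw [Finset.sup_lt_iff (by exact WithBot.bot_lt_coe 48)]
  intro s hs
  refine lt_of_le_of_lt (degree_C_mul_X_pow_le _ _) ?_
  exact_mod_cast mem_range.mp hs

theorem totient105 : Nat.totient 105 = 48 := by decide +kernel

theorem degree_cyc : (cyclotomic 105 ℤ).degree = 48 := by
  rw [degree_cyclotomic, totient105]; rfl

theorem exists_quot (r : ℕ) : ∃ q : ℤ[X], toPoly (rows r) + cyclotomic 105 ℤ * q = X ^ r := by
  induction r with
  | zero =>
    refine ⟨0, ?_⟩
    have : toPoly (rows 0) = 1 := by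
      unfold toPoly
      rw [sum_range_succ']
      have h : ∀ s ∈ range 47, C ((rows 0).getD (s + 1) 0) * X ^ (s + 1) = (0 : ℤ[X]) := by
        intro s hs
        have h0 : (rows 0).getD (s + 1) 0 = 0 := by
          change (1 :: List.replicate 47 (0 : ℤ)).getD (s + 1) 0 = 0
          rw [List.getD_cons_succ, List.getD_replicate]
          exact mem_range.mp hs
        rw [h0]; simp
      rw [sum_eq_zero h]
      change 0 + C (1 : ℤ) * X ^ 0 = 1
      simp
    rw [this]; simp
  | succ r ih =>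
    obtain ⟨q, hq⟩ := ih
    refine ⟨C ((rows r).getD 47 0) + X * q, ?_⟩
    have h := X_mul_toPoly (rows r) (rows_length r)
    change toPoly (step (rows r)) + _ = _
    rw [pow_succ', ← hq, mul_add X, h]
    ring

theorem modByMonic_eq (r : ℕ) : (X ^ r : ℤ[X]) %ₘ cyclotomic 105 ℤ = toPoly (rows r) := by
  obtain ⟨q, hq⟩ := exists_quot r
  exact (div_modByMonic_unique q (toPoly (rows r)) (cyclotomic.monic 105 ℤ)
    ⟨hq, by rw [degree_cyc]; exact degree_toPoly _⟩).2

theorem coeff_eq (r s : ℕ) (hs : s < 48) :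
    ((X ^ r : ℤ[X]) %ₘ cyclotomic 105 ℤ).coeff s = (rows r).getD s 0 := by
  rw [modByMonic_eq]
  unfold toPoly
  rw [finsetSum_coeff]
  simp only [coeff_C_mul_X_pow]
  rw [sum_ite_eq (range 48) s, if_pos (mem_range.mpr hs)]

/-- scalar product of lists -/
def dot (u v : List ℤ) : ℤ := (List.zipWith (· * ·) u v).sum

/-- `rows` up to `n`, as a list starting from `v` -/
def iter (n : ℕ) (v : List ℤ) : List (List ℤ) :=
  match n with
  | 0 => []
  | n + 1 => v :: iter n (step v)

end Pool.Agent.Q20.CY
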